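import Pool.Agent.H80.HK.Kcl

/-!
# The closed slope when its velocity is linear in the velocities of the base

`VlA`: the velocity of the path of the slopes is a closed linear function of the velocities of the time and
of the heights of the places `< r`. `vlp_of_vla`: then `VlP`. `blx_wga`: `BlX` from `VlA`.
-/

set_option autoImplicit false

namespace Pool.HK80

open Finset Real MvPolynomial
open Pool.Agent.H49.Ent Pool.Agent.H32.Dense Pool.STK Pool.KA Pool.KSAT Pool.K2S Pool.PB Pool.S6C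
open Pool.GEN Pool.CHT Pool.CHX Pool.ISO Pool.D2R Pool.D2G30 Pool.V1E Pool.CR99
open Pool.FLF (Fam.sub)
open Pool.PB.Trl (rt rt_mem t_rt)
open Pool.GRD (LbP)
open Pool.ALT (DpI)

variable {m : ℕ}

/-- **The slope is affine along the line, with closed coefficients.** -/
def VlA (S : PCl m) (c : ℕ → Fin m) (r D Dr N N₂ : ℕ) (R : ℕ → Prop) (C a Eb ε₀ η₀ : ℝ)
    (Pt : ℝ → ℝ → ℝ) (o : ℕ → ℝ) (lv be b : ℕ → ℕ → ℝ) (K₁ K₂ μ Gm : ℝ) : Prop :=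
  ∀ κ : ℝ, 0 < κ → Bas S (fun J F A =>
    ∃ (B B₁ : F.Ω → Prop) (z gc gT g₀ : ℕ → ℕ → ℕ)
      (G : ℕ → PtT F → ℕ → MvPolynomial (Option (Fin m)) ℝ)
      (H : ℕ → LnT F → ℕ → MvPolynomial (Option (Fin m)) ℝ)
      (T : ℕ → PtT F → ℕ → MvPolynomial (Option (Fin m)) ℝ)
      (TH : ℕ → LnT F → ℕ → MvPolynomial (Option (Fin m)) ℝ)
      (Gt : ℕ → PtT F → MvPolynomial (Option (Fin m)) ℝ)
      (Ht : ℕ → LnT F → MvPolynomial (Option (Fin m)) ℝ)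
      (ζ : Type) (ZL : LnT F → ζ) (ZG : PtT F → ζ) (Γ : ζ → Fin (r + 1) → ℝ) (gu : ℕ → ℕ),
      Sub B A ∧ Pe F.p A ≤ K₁ * Pe F.p B ∧
      WG c (r + 1) D Dr N N₂ R C a Eb ε₀ η₀ Pt o lv be F b κ z B gc gT g₀ G H T TH Gt Ht ∧
      Sub B₁ B ∧ Pe F.p B ≤ K₂ * Pe F.p B₁ ∧
      (∀ ω, B₁ ω → ZL (slam F ⌊o 0 * J⌋₊ ω) = ZG (ptr F J ω)) ∧
      (∀ z j, |Γ z j| ≤ (2 : ℝ) ^ (Gm * J)) ∧ (∀ l < r, gu l ≤ g₀ 0 l) ∧
      ∀ ω, B₁ ω → |(Polynomial.derivative (spt c r ⌊lv 0 r * J⌋₊ ⌊lv 0 (r + 1) * J⌋₊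
        ⌊o 0 * J⌋₊ (Ht 0) (slam F ⌊o 0 * J⌋₊ ω))).eval (rt F ⌊o 0 * J⌋₊ ω) -
        ∑ j, Γ (ZL (slam F ⌊o 0 * J⌋₊ ω)) j * (Polynomial.derivative
          (pth c ⌊o 0 * J⌋₊ gu (H 0) (slam F ⌊o 0 * J⌋₊ ω) j)).eval (rt F ⌊o 0 * J⌋₊ ω)| ≤
          (2 : ℝ) ^ (-(μ * J)))

/-- The closed polynomial: `u` times the affine function. -/
noncomputable def amf (c : ℕ → Fin m) (r w : ℕ) (g : ℕ → ℕ) (U : ℝ) (Γ : Fin (r + 1) → ℝ) (n : ℕ)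
    (ψ : ℕ → MvPolynomial (Option (Fin m)) ℝ) : MvPolynomial (Option (Fin m)) ℝ :=
  C U * affC c w g 0 Γ n ψ * X (some (c r))

theorem deg_amf {D : ℕ} (c : ℕ → Fin m) (r w : ℕ) (g : ℕ → ℕ) (U : ℝ) (Γ : Fin (r + 1) → ℝ) (n : ℕ)
    {ψ : ℕ → MvPolynomial (Option (Fin m)) ℝ} (hD : 1 ≤ D) (hψ : ∀ l, (ψ l).totalDegree ≤ D) :
    (amf c r w g U Γ n ψ).totalDegree ≤ D + 1 := by
  unfold amf
  refine (totalDegree_mul _ _).trans (Nat.add_le_add ((totalDegree_mul _ _).trans ?_) ?_)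
  · rw [totalDegree_C, zero_add]
    exact deg_affC c w g _ _ _ hD hψ
  · rw [totalDegree_X]

theorem dep_amf (c : ℕ → Fin m) (r w : ℕ) (g : ℕ → ℕ) (U : ℝ) (Γ : Fin (r + 1) → ℝ) (n : ℕ)
    {ψ : ℕ → MvPolynomial (Option (Fin m)) ℝ} (hψ : ∀ l, DepC c l (ψ l)) :
    DepC c (r + 1) (amf c r w g U Γ n ψ) := by
  intro b b' h1 h2
  unfold amf
  rw [map_mul, map_mul, map_mul, map_mul, eval_C, eval_C, eval_X, eval_X,
    dep_affC c w g 0 Γ n hψ b b' h1 fun l hl => h2 l (by omega), h2 r (Nat.lt_succ_self r)]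

theorem pd_amf {c : ℕ → Fin m} {r : ℕ} (hc : Set.InjOn c (Set.Iio (r + 1))) (w : ℕ) (g : ℕ → ℕ)
    (U : ℝ) (Γ : Fin (r + 1) → ℝ) (n : ℕ) {ψ : ℕ → MvPolynomial (Option (Fin m)) ℝ}
    (hψ : ∀ l, DepC c l (ψ l)) :
    pderiv (some (c r)) (amf c r w g U Γ n ψ) = C U * affC c w g 0 Γ n ψ := by
  refine MvPolynomial.funext fun b => ?_
  have e1 : eval b (pderiv (some (c r)) (affC c w g 0 Γ n ψ)) = 0 :=
    Pool.ALT.dpI_pd hc (depC_dpI (dep_affC c w g 0 Γ n hψ)) b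
  unfold amf
  rw [mul_assoc, pderiv_C_mul, Derivation.leibniz, pderiv_X_self]
  simp only [smul_eq_mul, map_add, map_mul, eval_X, eval_C, map_one, e1]
  ring

/-- **The affine slope is a closed polynomial slope.** -/
theorem vlp_of_vla (m D r : ℕ) (hD1 : 1 ≤ D) : ∃ C₁ : ℕ, 1 ≤ C₁ ∧ ∀ {S : PCl m}
    {c : ℕ → Fin m} {Dr N N₂ : ℕ} {R : ℕ → Prop} {C a Eb ε₀ η₀ : ℝ} {Pt : ℝ → ℝ → ℝ}
    {o : ℕ → ℝ} {lv be b : ℕ → ℕ → ℝ} {K₁ K₂ μ Gm : ℝ}, Set.InjOn c (Set.Iio (r + 2)) →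
    0 < η₀ → 1 ≤ C → a ≤ 1 → 0 ≤ lv 0 r → 0 ≤ lv 0 (r + 1) → 0 ≤ μ → 0 ≤ Gm →
    (∀ l < r, Eb + lv 0 l + Gm + μ + C₁ * (C * η₀) ≤ 1) →
    VlA S c r D Dr N N₂ R C a Eb ε₀ η₀ Pt o lv be b K₁ K₂ μ Gm →
    VlP S c r D Dr (D + 1) N N₂ R C a Eb ε₀ η₀ Pt o lv be b K₁ K₂ μ := by
  classical
  obtain ⟨C₂, hht⟩ := ht_cell D r
  obtain ⟨C₃, hC₃⟩ := pow_unbounded_of_one_lt (2 * ((r : ℝ) + 1)) (one_lt_two (α := ℝ))
  refine ⟨5, by norm_num, ?_⟩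
  intro S c Dr N N₂ R C a Eb ε₀ η₀ Pt o lv be b K₁ K₂ μ Gm hc hη hC ha1 hl0 hl1 hμ hGm hsum hV κ hκ
  have h2 : (0 : ℝ) < 2 := by norm_num
  obtain ⟨J₁, hJ₁⟩ := exists_nat_ge (((C₂ : ℝ) + C₃ + 2) / η₀)
  refine Bas.mono J₁ (hV κ hκ) ?_
  rintro J hJ F A ⟨B, B₁, z, gc, gT, g₀, G, H, T, TH, Gt, Ht, ζ, ZL, ZG, Γ, gu, b1, b2, W, b3, b4,
    hZ, hΓ, hgu, hder⟩
  have hJ0 : (0 : ℝ) ≤ J := Nat.cast_nonneg J
  have j1 : (C₂ : ℝ) + C₃ + 2 ≤ η₀ * J := by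
    have e1 : (J₁ : ℝ) ≤ J := by exact_mod_cast hJ
    have e2 := hJ₁.trans e1
    rw [div_le_iff₀ hη] at e2
    linarith
  have hCη : η₀ * J ≤ C * η₀ * J := by
    have := mul_le_mul_of_nonneg_right (le_mul_of_one_le_left hη.le hC) hJ0
    linarith
  obtain ⟨ho00, ho0a⟩ := W.win.ho 0 (Nat.zero_le N)
  have h0J : ⌊o 0 * J⌋₊ ≤ J := by
    refine Nat.floor_le_of_le ?_
    have := mul_le_mul_of_nonneg_right (ho0a.trans ha1) hJ0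
    linarith
  have hb0 := W.win.evs 0 (Nat.zero_le N)
  have hc1 : Set.InjOn c (Set.Iio (r + 1)) := hc.mono fun y hy => by
    rw [Set.mem_Iio] at hy ⊢
    omega
  have hc0 : Set.InjOn c (Set.Iio r) := hc.mono fun y hy => by
    rw [Set.mem_Iio] at hy ⊢
    omega
  obtain ⟨w, hw⟩ : ∃ w, w = ⌊o 0 * J⌋₊ := ⟨_, rfl⟩
  obtain ⟨su, hsu⟩ : ∃ su, su = ⌊lv 0 r * J⌋₊ := ⟨_, rfl⟩
  obtain ⟨sn, hsn⟩ : ∃ sn, sn = ⌊lv 0 (r + 1) * J⌋₊ := ⟨_, rfl⟩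
  obtain ⟨U, hU⟩ : ∃ U : ℝ, U = 2 ^ su / 2 ^ sn := ⟨_, rfl⟩
  have hUp : 0 < U := by rw [hU]; positivity
  have hUU : 2 ^ sn / 2 ^ su * U = 1 := by
    rw [hU]
    field_simp
  rw [← hw] at h0J hZ hder
  rw [← hsu, ← hsn] at hder
  have su1 : (su : ℝ) ≤ lv 0 r * J := by rw [hsu]; exact Nat.floor_le (mul_nonneg hl0 hJ0)
  have sn2 : lv 0 (r + 1) * J < sn + 1 := by rw [hsn]; exact Nat.lt_floor_add_one _
  obtain ⟨v, hv⟩ : ∃ v, v = ⌈(Gm + μ) * J⌉₊ + C₃ := ⟨_, rfl⟩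
  have hGJ : 0 ≤ (Gm + μ) * J := mul_nonneg (by linarith) hJ0
  have v1 : (v : ℝ) ≤ (Gm + μ) * J + 1 + C₃ := by
    rw [hv]
    push_cast
    have := Nat.ceil_lt_add_one hGJ
    linarith
  have v2 : (Gm + μ) * J + C₃ ≤ v := by
    rw [hv]
    push_cast
    have := Nat.le_ceil ((Gm + μ) * (J : ℝ))
    linarith
  have hpo : ∀ l < r, ⌊(Eb + (fun _ : ℕ => η₀) 0 + (fun _ : ℕ => η₀) 0) * J⌋₊ + g₀ 0 l + v + C₂ ≤
      J := by
    intro l hl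
    have h5 := (W.win.g_num (Nat.zero_le N) (l := l) (by omega)).2.2.2.1
    have hEb : 0 ≤ Eb := W.win.Eb0
    have e1 : (⌊(Eb + (fun _ : ℕ => η₀) 0 + (fun _ : ℕ => η₀) 0) * J⌋₊ : ℝ) ≤
        Eb * J + 2 * (η₀ * J) := by
      refine (Nat.floor_le ?_).trans (le_of_eq (by ring))
      have : 0 ≤ (Eb + η₀ + η₀) * (J : ℝ) := mul_nonneg (by linarith) hJ0
      exact this
    have h6 := mul_le_mul_of_nonneg_right (hsum l hl) hJ0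
    rw [one_mul] at h6
    push_cast at h6
    have h7 : ((⌊(Eb + (fun _ : ℕ => η₀) 0 + (fun _ : ℕ => η₀) 0) * J⌋₊ + g₀ 0 l + v + C₂ : ℕ) :
        ℝ) ≤ (J : ℕ) := by
      push_cast
      linarith
    exact_mod_cast h7
  refine ⟨B, B₁, z, gc, gT, g₀, G, H, T, TH, Gt, Ht,
    fun s => amf c r w gu U (Γ (ZL s)) s.2.2 (H 0 s),
    fun y => amf c r w gu U (Γ (ZG y)) (y.2.1 / 2 ^ (J - w)) (G 0 y), b1, b2, W, b3, b4,
    ⟨fun s => deg_amf c r w gu U _ _ hD1 (hb0.ball.degH s),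
      fun y => deg_amf c r w gu U _ _ hD1 (hb0.ball.degG y),
      fun s => dep_amf c r w gu U _ _ (hb0.ball.depH s),
      fun y => dep_amf c r w gu U _ _ (hb0.ball.depG y)⟩, fun ω hω => ?_, fun ω ν hω hν hpt => ?_,
    fun ω hω => ?_⟩
  · rw [← hw]
    have e1 : (ptr F J ω).2.1 / 2 ^ (J - w) = (slam F w ω).2.2 := rfl
    beta_reduce
    rw [e1, ← hZ ω hω]
    unfold amf affC
    congr 2
    congr 1
    refine Finset.sum_congr rfl fun j _ => ?_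
    rw [hb0.cls ω (b3 ω hω) j (by omega), ← hw]
  · obtain ⟨-, htn, -⟩ := bt_near hpt
    beta_reduce
    rw [pd_amf hc1 w gu U _ _ (hb0.ball.depG _), map_mul, map_mul, eval_C, eval_C, ← mul_sub, abs_mul,
      abs_of_pos hUp, eval_affC, eval_affC, htn]
    have h5 := hht (v := v) (A := B) (G := G 0) (H := H 0) hc0
      (hb0.ball.mono (r' := r) (by omega) (fun _ => le_rfl) le_rfl le_rfl) hpo ω ν (b3 ω hω) hpt
    have e1 : ∀ (α β : ℝ) (f g : Fin r → ℝ), α + β + ∑ j, f j - (α + β + ∑ j, g j) =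
        ∑ j, (f j - g j) := fun α β f g => by
      rw [Finset.sum_sub_distrib]
      ring
    rw [e1]
    have h6 : |∑ j : Fin r, (Γ (ZG (ptr F J ω)) j.succ * 2 ^ gu j *
        (bt F ω (some (c j)) - eval (bt F ω) (G 0 (ptr F J ω) j)) -
        Γ (ZG (ptr F J ω)) j.succ * 2 ^ gu j *
        (bt F ν (some (c j)) - eval (bt F ν) (G 0 (ptr F J ω) j)))| ≤
        r * ((2 : ℝ) ^ (Gm * J) * (1 / 2 ^ v)) := by
      refine (Finset.abs_sum_le_sum_abs _ _).trans ?_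
      refine (Finset.sum_le_card_nsmul _ _ ((2 : ℝ) ^ (Gm * J) * (1 / 2 ^ v)) fun j _ => ?_).trans
        (le_of_eq ?_)
      · rw [← mul_sub, abs_mul, abs_mul, abs_of_pos (show (0 : ℝ) < 2 ^ gu j by positivity)]
        have h7 := h5 j j.2
        have h8 : |bt F ω (some (c j)) - eval (bt F ω) (G 0 (ptr F J ω) j) -
            (bt F ν (some (c j)) - eval (bt F ν) (G 0 (ptr F J ω) j))| ≤
            1 / 2 ^ v / 2 ^ g₀ 0 j := by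
          rw [abs_sub_comm]
          exact h7
        calc |Γ (ZG (ptr F J ω)) j.succ| * 2 ^ gu j *
              |bt F ω (some (c j)) - eval (bt F ω) (G 0 (ptr F J ω) j) -
                (bt F ν (some (c j)) - eval (bt F ν) (G 0 (ptr F J ω) j))| ≤
              (2 : ℝ) ^ (Gm * J) * 2 ^ g₀ 0 j * (1 / 2 ^ v / 2 ^ g₀ 0 j) := by
              refine mul_le_mul (mul_le_mul (hΓ _ _) (pow_le_pow_right₀ (by norm_num)
                (hgu j j.2)) (by positivity) (by positivity)) h8 (abs_nonneg _) (by positivity)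
          _ = (2 : ℝ) ^ (Gm * J) * (1 / 2 ^ v) := by field_simp
      · rw [Finset.card_univ, Fintype.card_fin, nsmul_eq_mul]
    refine (mul_le_mul_of_nonneg_left h6 hUp.le).trans ?_
    have h7 : (r : ℝ) ≤ 2 ^ ((C₃ : ℝ) - 1) := by
      rw [Real.rpow_sub_one h2.ne', Real.rpow_natCast]
      linarith
    have h8 : U ≤ (2 : ℝ) ^ (lv 0 r * J - lv 0 (r + 1) * J + 1) := by
      rw [hU, ← Real.rpow_natCast 2 su, ← Real.rpow_natCast 2 sn, ← Real.rpow_sub h2]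
      exact Real.rpow_le_rpow_of_exponent_le (by norm_num) (by linarith)
    have h9 : (1 : ℝ) / 2 ^ v = (2 : ℝ) ^ (-(v : ℝ)) := by
      rw [Real.rpow_neg h2.le, Real.rpow_natCast, one_div]
    calc U * (r * ((2 : ℝ) ^ (Gm * J) * (1 / 2 ^ v))) ≤
        (2 : ℝ) ^ (lv 0 r * J - lv 0 (r + 1) * J + 1) * ((2 : ℝ) ^ ((C₃ : ℝ) - 1) *
          ((2 : ℝ) ^ (Gm * J) * (2 : ℝ) ^ (-(v : ℝ)))) := by
          rw [h9]
          exact mul_le_mul h8 (mul_le_mul_of_nonneg_right h7 (by positivity)) (by positivity)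
            (by positivity)
      _ = (2 : ℝ) ^ (lv 0 r * J - lv 0 (r + 1) * J + 1 + ((C₃ : ℝ) - 1 + (Gm * J + -(v : ℝ)))) := by
          rw [← Real.rpow_add h2, ← Real.rpow_add h2, ← Real.rpow_add h2]
      _ ≤ _ := by
          refine Real.rpow_le_rpow_of_exponent_le (by norm_num) ?_
          have e2 : (Gm + μ) * (J : ℝ) = Gm * J + μ * J := by ring
          have e3 : (lv 0 r - lv 0 (r + 1) - μ) * (J : ℝ) =
            lv 0 r * J - lv 0 (r + 1) * J - μ * J := by ring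
          rw [e2] at v2
          rw [e3]
          linarith
  · rw [← hw, ← hsu, ← hsn]
    have key : spt c r su sn w (fun s => Ht 0 s - amf c r w gu U (Γ (ZL s)) s.2.2 (H 0 s))
        (slam F w ω) = spt c r su sn w (Ht 0) (slam F w ω) -
          ∑ j, Polynomial.C (Γ (ZL (slam F w ω)) j) * pth c w gu (H 0) (slam F w ω) j := by
      refine Polynomial.funext fun τ => ?_
      have e1 : ∀ P : MvPolynomial (Option (Fin m)) ℝ,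
          (MvPolynomial.aeval (lc w (slam F w ω)) P).eval τ = eval (ptw F w ω τ) P := fun P => by
        rw [aeval_lc]
      unfold spt
      rw [Polynomial.eval_sub, Polynomial.eval_mul, Polynomial.eval_mul, Polynomial.eval_C, e1, e1,
        map_sub, map_sub, pd_amf hc1 w gu U _ _ (hb0.ball.depH _), map_mul, eval_C, affC_own,
        Polynomial.eval_finsetSum, Fin.sum_univ_succ]
      simp only [pth, Fin.cons_zero, Fin.cons_succ, Polynomial.eval_X, Polynomial.eval_mul,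
        Polynomial.eval_C]
      rw [mul_sub, ← mul_assoc (2 ^ sn / 2 ^ su : ℝ) U, hUU]
      ring
    rw [key]
    refine le_trans (le_of_eq ?_) (hder ω hω)
    congr 1
    rw [Polynomial.derivative_sub, Polynomial.eval_sub, Polynomial.derivative_sum,
      Polynomial.eval_finsetSum]
    congr 1
    refine Finset.sum_congr rfl fun j _ => ?_
    rw [Polynomial.derivative_C_mul, Polynomial.eval_mul, Polynomial.eval_C]

/-- **The closed slope when its velocity is linear in the velocities of the base.** -/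
theorem blx_wga (m D r : ℕ) (hD1 : 1 ≤ D) : ∃ C₁ : ℕ, 1 ≤ C₁ ∧ ∀ {S : PCl m} {C₀ : ℝ}
    {c : ℕ → Fin m} {Dr N N₂ : ℕ} {R : ℕ → Prop} {C a Eb ε₀ η₀ : ℝ} {Pt : ℝ → ℝ → ℝ} {o : ℕ → ℝ}
    {lv be b : ℕ → ℕ → ℝ} {K₁ K₂ μ Gm : ℝ}, TmC S C₀ → Set.InjOn c (Set.Iio (r + 2)) → R r →
    D + 1 ≤ Dr → 0 < K₁ → 0 < K₂ → 0 < η₀ → 1 ≤ C → 0 ≤ Gm →
    VlA S c r D Dr N N₂ R C a Eb ε₀ η₀ Pt o lv be b K₁ K₂ μ Gm →
    ∀ (n d : ℕ) (ζ M₁ Λ P : ℝ) (x₀ : ℕ → ℝ), 0 ≤ ζ → 0 ≤ M₁ → 0 ≤ Λ → 0 ≤ P →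
    (∀ k < n, k ≤ N) → d ≤ N → a ≤ 1 → o 0 < 1 → o 0 ≤ o d → (∀ k < n, o 0 ≤ o k) →
    (∀ k ≤ N, lv k (r + 1) + (a - o k) ≤ Pt a (o 0) + ζ) →
    (∀ k ≤ N, ζ + 4 * (C * η₀) ≤ lv k (r + 1)) → 0 ≤ lv 0 r →
    (∀ l < r, Eb + lv 0 l + Gm + μ + C₁ * (C * η₀) ≤ 1) →
    (∀ l ≤ r + 1, lv d l ≤ lv d (r + 1) + Λ) →
    Eb + Λ + lv d (r + 1) + C₁ * (C * η₀) ≤ 1 →
    M₁ + C₁ * (ζ + C * η₀) ≤ (lv d (r + 1) - lv d r) - (lv 0 (r + 1) - lv 0 r) →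
    M₁ + 2 * (C * η₀) ≤ μ →
    (∀ k < n, lv k r - lv k (r + 1) + ζ + 7 * (C * η₀) ≤ x₀ k) →
    (∀ k < n, lv 0 r - lv 0 (r + 1) - M₁ + C * η₀ ≤ x₀ k) →
    P + 2 * ζ + 24 * (C * η₀) ≤ lv 0 (r + 1) →
    BlX S c r (bmd (D + 1)) (D + 1) (o 0) P n o (fun k => lv k (r + 1) - η₀) x₀
      (8 * (K₂ * K₁)) := by
  obtain ⟨C₁, hC₁, h1⟩ := blx_wgp m D (D + 1) r
  obtain ⟨C₂, hC₂, h2⟩ := vlp_of_vla m D r hD1
  refine ⟨C₁ + C₂, by omega, ?_⟩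
  intro S C₀ c Dr N N₂ R C a Eb ε₀ η₀ Pt o lv be b K₁ K₂ μ Gm htm hc hR hDr hK₁ hK₂ hη hC hGm hV
    n d ζ M₁ Λ P x₀ hζ hM₁ hΛ hP hn hd ha1 ho1 h0d h0k hrow hpos hl0 hlow hlv hsum hmd hμ hx1 hx2
    hPn
  have hCη : 0 < C * η₀ := mul_pos (by linarith) hη
  have hc2 : (0 : ℝ) ≤ C₂ * (C * η₀) := mul_nonneg (Nat.cast_nonneg _) hCη.le
  have hc1 : (0 : ℝ) ≤ C₁ * (C * η₀) := mul_nonneg (Nat.cast_nonneg _) hCη.le
  have hc3 : (0 : ℝ) ≤ C₂ * (ζ + C * η₀) := mul_nonneg (Nat.cast_nonneg _) (by linarith)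
  have hl1 : 0 ≤ lv 0 (r + 1) := by
    have := hpos 0 (Nat.zero_le N)
    linarith
  have e1 : ((C₁ + C₂ : ℕ) : ℝ) * (C * η₀) = C₁ * (C * η₀) + C₂ * (C * η₀) := by
    push_cast
    ring
  have e2 : ((C₁ + C₂ : ℕ) : ℝ) * (ζ + C * η₀) = C₁ * (ζ + C * η₀) + C₂ * (ζ + C * η₀) := by
    push_cast
    ring
  rw [e1] at hsum
  rw [e2] at hmd
  exact h1 htm hc hR (Nat.le_succ D) (by omega) hDr hK₁ hK₂ hη hC
    (h2 hc hη hC ha1 hl0 hl1 (by linarith) hGm (fun l hl => by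
      have h3 := hlow l hl
      rw [e1] at h3
      linarith) hV) n d ζ M₁ Λ P x₀ hζ hM₁ hΛ hP hn hd ha1 ho1 h0d h0k hrow hpos hl0 hlv
    (by linarith) (by linarith) hμ hx1 hx2 hPn

end Pool.HK80
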