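import Pool.Agent.H99.D2.Bld
import Pool.Agent.H99.D2.Une

/-!
# The closed slope from a closed polynomial and a small velocity

`VlP`: there is a closed polynomial `ML` over the time and the places `≤ r` such that the path of the
derivative of (the row label minus `ML`) in the direction `c r` has a small velocity. `blx_wgp`: `BlX` from
`VlP`. The case `ML = 0` is `VlS`.
-/

set_option autoImplicit false

namespace Pool.HK80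

open Finset Real MvPolynomial
open Pool.Agent.H49.Ent Pool.Agent.H32.Dense Pool.STK Pool.KA Pool.KSAT Pool.K2S Pool.PB Pool.S6C
open Pool.GEN Pool.CHT Pool.CHX Pool.ISO Pool.D2R Pool.D2G30 Pool.V1E Pool.CR99
open Pool.FLF (Fam.sub)
open Pool.PB.Trl (rt rt_mem t_rt)
open Pool.GRD (LbP)

variable {m : ℕ}

/-- **The constant path**: a visible path with a small velocity is near a closed number. -/
theorem cst_path (m K : ℕ) : ∃ C : ℕ, 1 ≤ C ∧ ∀ {J : ℕ} {F : Fam m J} {o₁ : ℕ}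
    {cP : LnT F → Polynomial ℝ}, o₁ ≤ J → (∀ s, (cP s).natDegree ≤ K) →
    ∀ (M : ℕ) {A : F.Ω → Prop} (hA : 0 < Pe F.p A),
    ∀ (S₀ S₁ θ : ℝ), (∀ ω ν, A ω → A ν → ptr F J ω = ptr F J ν →
      |(cP (slam F o₁ ω)).eval (rt F o₁ ω) - (cP (slam F o₁ ν)).eval (rt F o₁ ν)| ≤ S₁) →
    0 < S₀ → 0 ≤ θ → (Fam.sub F A hA).Tm θ →
    C * (θ + 1) ≤ ((J : ℝ) - o₁) * Real.log 2 →
    (∀ ω, A ω → |(Polynomial.derivative (cP (slam F o₁ ω))).eval (rt F o₁ ω)| ≤ S₀) →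
    Real.exp (C * (θ + 1)) * S₀ + S₁ ≤ 1 / (4 * 2 ^ M) →
    ∃ (B' : F.Ω → Prop) (κL : LnT F → ℝ) (κG : PtT F → ℝ), Sub B' A ∧
      Pe F.p A / 4 ≤ Pe F.p B' ∧ (∀ ω, B' ω → κG (ptr F J ω) = κL (slam F o₁ ω)) ∧
      ∀ ω, B' ω → ∀ τ ∈ Set.Icc (0 : ℝ) 1,
        |(cP (slam F o₁ ω)).eval τ - κL (slam F o₁ ω)| ≤ 2 / 2 ^ M := by
  classical
  obtain ⟨C₀, hC₀, hval⟩ := chart_val m 0 K
  obtain ⟨C₃, hC₃⟩ : ∃ C₃ : ℕ, C₃ = ⌈C₀⌉₊ := ⟨_, rfl⟩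
  have hC3 : C₀ ≤ C₃ := by rw [hC₃]; exact Nat.le_ceil _
  refine ⟨C₃ + 1, by omega, ?_⟩
  intro J F o₁ cP h1J hdeg M A hA S₀ S₁ θ hvis hS₀ hθ hTm hJo hder hsum
  obtain ⟨C, hC⟩ : ∃ C, C = C₃ + 1 := ⟨_, rfl⟩
  rw [← hC] at hJo hsum
  have hC0 : C₀ ≤ C := hC3.trans (by
    have : C₃ ≤ C := by omega
    exact_mod_cast this)
  have hθ1 : 0 ≤ θ + 1 := by linarith
  obtain ⟨cy, hcy⟩ := vis_of A (fun ω => (cP (slam F o₁ ω)).eval (rt F o₁ ω))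
  have hc' : ∀ ω, A ω → |(cP (slam F o₁ ω)).eval (rt F o₁ ω) - cy (ptr F J ω)| ≤ S₁ := by
    intro ω hω
    obtain ⟨ν, h1, h2, h3⟩ := hcy ω hω
    rw [h3]
    exact hvis ω ν hω h1 h2
  obtain ⟨B₁, κL, κG, b1, b2, hclo, hown, -⟩ := hval J F A hA o₁ (ζ := Unit)
    (fun _ => ()) (fun _ => ()) (fun _ j => Fin.elim0 j) cP (fun _ j => Fin.elim0 j) cy
    (fun _ j => Fin.elim0 j) S₀ S₁ 0 0 θ M h1J hdeg
    (fun _ j => Fin.elim0 j) hS₀ hθ hTm ((mul_le_mul_of_nonneg_right hC0 hθ1).trans hJo)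
    (fun _ _ => rfl) (fun _ j => Fin.elim0 j) hc' (fun _ _ j => Fin.elim0 j)
    (fun ω hω => by
      rw [Finset.univ_eq_empty, Finset.sum_empty, sub_zero]
      exact hder ω hω) (by
      refine le_trans ?_ hsum
      have h1 : Real.exp (C₀ * (θ + 1)) ≤ Real.exp (C * (θ + 1)) :=
        Real.exp_le_exp.2 (mul_le_mul_of_nonneg_right hC0 hθ1)
      have h2 := mul_le_mul_of_nonneg_right h1 hS₀.le
      simp only [mul_zero, add_zero]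
      linarith)
  refine ⟨B₁, κL, κG, b1, b2, fun ω hω => (hclo ω hω).symm, fun ω hω τ hτ => ?_⟩
  have h1 := (hown ω hω τ hτ).1
  rwa [Finset.univ_eq_empty, Finset.sum_empty, sub_zero] at h1

/-- **The path of the slopes has the velocity of a closed polynomial.** -/
def VlP (S : PCl m) (c : ℕ → Fin m) (r D Dr Dm N N₂ : ℕ) (R : ℕ → Prop) (C a Eb ε₀ η₀ : ℝ)
    (Pt : ℝ → ℝ → ℝ) (o : ℕ → ℝ) (lv be b : ℕ → ℕ → ℝ) (K₁ K₂ μ : ℝ) : Prop :=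
  ∀ κ : ℝ, 0 < κ → Bas S (fun J F A =>
    ∃ (B B₁ : F.Ω → Prop) (z gc gT g₀ : ℕ → ℕ → ℕ)
      (G : ℕ → PtT F → ℕ → MvPolynomial (Option (Fin m)) ℝ)
      (H : ℕ → LnT F → ℕ → MvPolynomial (Option (Fin m)) ℝ)
      (T : ℕ → PtT F → ℕ → MvPolynomial (Option (Fin m)) ℝ)
      (TH : ℕ → LnT F → ℕ → MvPolynomial (Option (Fin m)) ℝ)
      (Gt : ℕ → PtT F → MvPolynomial (Option (Fin m)) ℝ)
      (Ht : ℕ → LnT F → MvPolynomial (Option (Fin m)) ℝ)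
      (ML : LnT F → MvPolynomial (Option (Fin m)) ℝ)
      (Mp : PtT F → MvPolynomial (Option (Fin m)) ℝ), Sub B A ∧
      Pe F.p A ≤ K₁ * Pe F.p B ∧
      WG c (r + 1) D Dr N N₂ R C a Eb ε₀ η₀ Pt o lv be F b κ z B gc gT g₀ G H T TH Gt Ht ∧
      Sub B₁ B ∧ Pe F.p B ≤ K₂ * Pe F.p B₁ ∧
      ((∀ s, (ML s).totalDegree ≤ Dm) ∧ (∀ y, (Mp y).totalDegree ≤ Dm) ∧
        (∀ s, DepC c (r + 1) (ML s)) ∧ ∀ y, DepC c (r + 1) (Mp y)) ∧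
      (∀ ω, B₁ ω → Mp (ptr F J ω) = ML (slam F ⌊o 0 * J⌋₊ ω)) ∧
      (∀ ω ν, B₁ ω → B₁ ν → ptr F J ω = ptr F J ν →
        |eval (bt F ω) (pderiv (some (c r)) (Mp (ptr F J ω))) -
          eval (bt F ν) (pderiv (some (c r)) (Mp (ptr F J ω)))| ≤
          (2 : ℝ) ^ ((lv 0 r - lv 0 (r + 1) - μ) * J)) ∧
      ∀ ω, B₁ ω → |(Polynomial.derivative (spt c r ⌊lv 0 r * J⌋₊ ⌊lv 0 (r + 1) * J⌋₊
        ⌊o 0 * J⌋₊ (fun s => Ht 0 s - ML s) (slam F ⌊o 0 * J⌋₊ ω))).eval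
          (rt F ⌊o 0 * J⌋₊ ω)| ≤ (2 : ℝ) ^ (-(μ * J)))

/-- **The closed slope from a closed polynomial and a small velocity.** -/
theorem blx_wgp (m D Dm r : ℕ) : ∃ C₁ : ℕ, 1 ≤ C₁ ∧ ∀ {S : PCl m} {C₀ : ℝ} {c : ℕ → Fin m}
    {Dr N N₂ : ℕ} {R : ℕ → Prop} {C a Eb ε₀ η₀ : ℝ} {Pt : ℝ → ℝ → ℝ} {o : ℕ → ℝ}
    {lv be b : ℕ → ℕ → ℝ} {K₁ K₂ μ : ℝ}, TmC S C₀ → Set.InjOn c (Set.Iio (r + 2)) → R r →
    D ≤ Dm → 1 ≤ Dm → Dm ≤ Dr → 0 < K₁ → 0 < K₂ → 0 < η₀ → 1 ≤ C →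
    VlP S c r D Dr Dm N N₂ R C a Eb ε₀ η₀ Pt o lv be b K₁ K₂ μ →
    ∀ (n d : ℕ) (ζ M₁ Λ P : ℝ) (x₀ : ℕ → ℝ), 0 ≤ ζ → 0 ≤ M₁ → 0 ≤ Λ → 0 ≤ P →
    (∀ k < n, k ≤ N) → d ≤ N → a ≤ 1 → o 0 < 1 → o 0 ≤ o d → (∀ k < n, o 0 ≤ o k) →
    (∀ k ≤ N, lv k (r + 1) + (a - o k) ≤ Pt a (o 0) + ζ) →
    (∀ k ≤ N, ζ + 4 * (C * η₀) ≤ lv k (r + 1)) → 0 ≤ lv 0 r →
    (∀ l ≤ r + 1, lv d l ≤ lv d (r + 1) + Λ) →
    Eb + Λ + lv d (r + 1) + C₁ * (C * η₀) ≤ 1 →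
    M₁ + C₁ * (ζ + C * η₀) ≤ (lv d (r + 1) - lv d r) - (lv 0 (r + 1) - lv 0 r) →
    M₁ + 2 * (C * η₀) ≤ μ →
    (∀ k < n, lv k r - lv k (r + 1) + ζ + 7 * (C * η₀) ≤ x₀ k) →
    (∀ k < n, lv 0 r - lv 0 (r + 1) - M₁ + C * η₀ ≤ x₀ k) →
    P + 2 * ζ + 24 * (C * η₀) ≤ lv 0 (r + 1) →
    BlX S c r (bmd Dm) Dm (o 0) P n o (fun k => lv k (r + 1) - η₀) x₀ (8 * (K₂ * K₁)) := by
  classical
  obtain ⟨C₄, hC₄, hcst⟩ := cst_path m Dm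
  obtain ⟨C₅, hC₅, hvis⟩ := cab_vis D r
  refine ⟨C₄ + 10 * C₅ + 20, by omega, ?_⟩
  intro S C₀ c Dr N N₂ R C a Eb ε₀ η₀ Pt o lv be b K₁ K₂ μ htm hc hR hDDm hDm1 hDr hK₁ hK₂ hη hC hV
    n d ζ M₁ Λ P x₀ hζ hM₁ hΛ hP hn hd ha1 ho1 h0d h0k hrow hpos hl0 hlv hsum hmd hμ hx1 hx2 hPn
  have hl2 : 0 < Real.log 2 := Real.log_pos one_lt_two
  have h2 : (0 : ℝ) < 2 := by norm_num
  push_cast at hsum hmd
  have c4 : (1 : ℝ) ≤ C₄ := by exact_mod_cast hC₄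
  have c5 : (1 : ℝ) ≤ C₅ := by exact_mod_cast hC₅
  have hc1 : Set.InjOn c (Set.Iio (r + 1)) := hc.mono fun y hy => by
    rw [Set.mem_Iio] at hy ⊢
    omega
  have hCη : 0 < C * η₀ := mul_pos (by linarith) hη
  -- the time deficit
  obtain ⟨CC, hCC⟩ : ∃ CC : ℝ, CC = C₄ + 10 * C₅ + 20 := ⟨_, rfl⟩
  have hCC1 : 1 ≤ CC := by rw [hCC]; linarith
  obtain ⟨ψ, hψ⟩ : ∃ ψ : ℝ, ψ = min η₀ (1 - o 0) * Real.log 2 / (2 * CC) := ⟨_, rfl⟩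
  have hmin : 0 < min η₀ (1 - o 0) := lt_min hη (by linarith)
  have hψ0 : 0 < ψ := by
    rw [hψ]
    have : (0 : ℝ) < 2 * CC := by linarith
    positivity
  have hψC : CC * ψ = min η₀ (1 - o 0) * Real.log 2 / 2 := by
    rw [hψ]
    have : (CC : ℝ) ≠ 0 := by positivity
    field_simp
  obtain ⟨J₁, hJ₁⟩ := exists_nat_ge (2 * CC / (min η₀ (1 - o 0) * Real.log 2))
  obtain ⟨J₂, hJ₂⟩ := exists_nat_ge ((CC + 10) / (C * η₀))
  have hκ : (0 : ℝ) < 1 / (8 * K₂) := by positivity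
  refine Bas.mono (max J₁ J₂) (Bas.and (hV (1 / (8 * K₂)) hκ)
    (Pool.GRW.bas_part (Pool.GRW.tms_bas htm hψ0) (mul_pos hK₂ hK₁))) ?_
  rintro J hJ F A ⟨⟨B, B₁, z, gc, gT, g₀, G, H, T, TH, Gt, Ht, ML, Mp, b1, b2, W, b3, b4,
    ⟨dML, dMp, pML, pMp⟩, hclo, hMv, hder⟩, htB⟩
  have hJ0 : (0 : ℝ) ≤ J := Nat.cast_nonneg J
  have j1 : CC ≤ min η₀ (1 - o 0) * Real.log 2 / 2 * J := by
    have e1 : (J₁ : ℝ) ≤ J := by exact_mod_cast (le_max_left _ _).trans hJ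
    have e2 := hJ₁.trans e1
    rw [div_le_iff₀ (by positivity)] at e2
    linarith
  have j2 : CC + 10 ≤ C * (η₀ * J) := by
    have e1 : (J₂ : ℝ) ≤ J := by exact_mod_cast (le_max_right _ _).trans hJ
    have e2 := hJ₂.trans e1
    rw [div_le_iff₀ hCη] at e2
    linarith
  have hPB₁ : Pe F.p A ≤ K₂ * K₁ * Pe F.p B₁ := by
    have := mul_le_mul_of_nonneg_left b4 hK₁.le
    linarith
  obtain ⟨hB₁, hTm⟩ := htB B₁ (fun ω hω => b1 ω (b3 ω hω)) hPB₁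
  obtain ⟨X, hX⟩ : ∃ X : ℝ, X = C * (η₀ * J) := ⟨_, rfl⟩
  obtain ⟨Zt, hZt⟩ : ∃ Z : ℝ, Z = ζ * J := ⟨_, rfl⟩
  have hηJ : 0 ≤ η₀ * J := mul_nonneg hη.le hJ0
  have hηX : η₀ * J ≤ X := by rw [hX]; exact le_mul_of_one_le_left hηJ hC
  have hX0 : 0 ≤ X := hηJ.trans hηX
  have hZ0 : 0 ≤ Zt := by rw [hZt]; exact mul_nonneg hζ hJ0
  rw [← hX] at j2
  obtain ⟨ho00, ho0a⟩ := W.win.ho 0 (Nat.zero_le N)
  have hokJ : ∀ k ≤ N, ⌊o k * J⌋₊ ≤ J := fun k hk => by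
    obtain ⟨q1, q2⟩ := W.win.ho k hk
    refine Nat.floor_le_of_le ?_
    have := mul_le_mul_of_nonneg_right (q2.trans ha1) hJ0
    linarith
  have h0J := hokJ 0 (Nat.zero_le N)
  have f0 : (⌊o 0 * J⌋₊ : ℝ) ≤ o 0 * J := Nat.floor_le (mul_nonneg ho00 hJ0)
  have hJX : (1 : ℝ) ≤ C * (η₀ * J) := by rw [← hX]; linarith
  have hnear : ∀ k ≤ N, o 0 ≤ o k → ∀ ω, B ω →
      |eval (bt F ω) (pderiv (some (c r)) (Ht 0 (slam F ⌊o 0 * J⌋₊ ω))) -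
        eval (bt F ω) (pderiv (some (c r)) (H k (slam F ⌊o k * J⌋₊ ω) (r + 1)))| ≤
        (2 : ℝ) ^ ((lv k r - lv k (r + 1) + ζ + 6 * (C * η₀)) * J) := fun k hk h0 =>
    wg_near W hc1 hR (Nat.zero_le N) hk h0 (hokJ k hk) hζ hη.le hJX (hrow k hk) (hpos k hk)
  have hmin1 : min η₀ (1 - o 0) ≤ η₀ := min_le_left _ _
  have hmin2 : min η₀ (1 - o 0) ≤ 1 - o 0 := min_le_right _ _
  have htt : CC * (ψ * J + 1) ≤ min η₀ (1 - o 0) * Real.log 2 * J := by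
    have : CC * (ψ * J + 1) = CC * ψ * J + CC := by ring
    rw [this, hψC]
    linarith
  have hlv1 : 0 ≤ lv 0 (r + 1) := by
    have := hpos 0 (Nat.zero_le N)
    linarith
  -- the numbers
  obtain ⟨su, hsu⟩ : ∃ su, su = ⌊lv 0 r * J⌋₊ := ⟨_, rfl⟩
  obtain ⟨sn, hsn⟩ : ∃ sn, sn = ⌊lv 0 (r + 1) * J⌋₊ := ⟨_, rfl⟩
  obtain ⟨x, hx⟩ : ∃ x, x = ⌊(ζ + 8 * (C * η₀)) * J⌋₊ := ⟨_, rfl⟩
  obtain ⟨md, hmd'⟩ : ∃ md : ℝ, md = ((lv d (r + 1) - lv d r) - (lv 0 (r + 1) - lv 0 r)) * J :=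
    ⟨_, rfl⟩
  have su1 : (su : ℝ) ≤ lv 0 r * J := by rw [hsu]; exact Nat.floor_le (mul_nonneg hl0 hJ0)
  have su2 : lv 0 r * J < su + 1 := by rw [hsu]; exact Nat.lt_floor_add_one _
  have sn1 : (sn : ℝ) ≤ lv 0 (r + 1) * J := by
    rw [hsn]; exact Nat.floor_le (mul_nonneg hlv1 hJ0)
  have sn2 : lv 0 (r + 1) * J < sn + 1 := by rw [hsn]; exact Nat.lt_floor_add_one _
  have ex : (ζ + 8 * (C * η₀)) * (J : ℝ) = Zt + 8 * X := by rw [hX, hZt]; ring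
  have x1 : (x : ℝ) ≤ Zt + 8 * X := by
    rw [hx, ← ex]
    exact Nat.floor_le (by rw [ex]; linarith)
  have x2 : Zt + 8 * X < x + 1 := by rw [hx, ← ex]; exact Nat.lt_floor_add_one _
  have hM₁J : 0 ≤ M₁ * J := mul_nonneg hM₁ hJ0
  have m1 : (⌊M₁ * J⌋₊ : ℝ) ≤ M₁ * J := Nat.floor_le hM₁J
  have hmdJ : M₁ * J + (C₄ + 10 * C₅ + 20) * (Zt + X) ≤ md := by
    have h1 := mul_le_mul_of_nonneg_right hmd hJ0
    rw [← hmd'] at h1
    refine le_trans (le_of_eq ?_) h1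
    rw [hX, hZt]
    ring
  have hZX : 0 ≤ Zt + X := by linarith
  have hmd0 : 0 ≤ md := by
    have : 0 ≤ (C₄ + 10 * C₅ + 20 : ℝ) * (Zt + X) := by positivity
    linarith
  have md1 : (⌊md⌋₊ : ℝ) ≤ md := Nat.floor_le hmd0
  have md2 : md < ⌊md⌋₊ + 1 := Nat.lt_floor_add_one _
  have ek : ∀ k : ℕ, (lv k r - lv k (r + 1) + ζ + 6 * (C * η₀)) * (J : ℝ) =
      lv k r * J - lv k (r + 1) * J + Zt + 6 * X := fun k => by rw [hX, hZt]; ring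
  have hηf : (⌊η₀ * J⌋₊ : ℝ) ≤ η₀ * J := Nat.floor_le hηJ
  -- the balls of the windows `0` and `d`
  obtain ⟨-, -, a1, a2, -, -⟩ := W.win.g_num (Nat.zero_le N) (l := r) (by omega)
  obtain ⟨-, -, a3, a4, -, -⟩ := W.win.g_num (Nat.zero_le N) (l := r + 1) le_rfl
  have hdl : ∀ l ≤ r + 1, (g₀ d l : ℝ) ≤ lv d (r + 1) * J + Λ * J := fun l hl => by
    obtain ⟨-, -, -, h1, -, -⟩ := W.win.g_num hd (l := l) hl
    refine h1.trans ?_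
    have := mul_le_mul_of_nonneg_right (hlv l hl) hJ0
    linarith
  have hdr : (g₀ d r : ℝ) ≤ lv d r * J := (W.win.g_num hd (l := r) (by omega)).2.2.2.1
  have hEb : 0 ≤ Eb := W.win.Eb0
  have hΛJ : 0 ≤ Λ * J := mul_nonneg hΛ hJ0
  have hsumJ : Eb * J + Λ * J + lv d (r + 1) * J + (C₄ + 10 * C₅ + 20) * X ≤ J := by
    have h1 := mul_le_mul_of_nonneg_right hsum hJ0
    rw [one_mul] at h1
    refine le_trans (le_of_eq ?_) h1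
    rw [hX]
    ring
  have e1 : (⌊(Eb + (fun _ : ℕ => η₀) d + (fun _ : ℕ => η₀) d) * J⌋₊ : ℝ) ≤
      Eb * J + 2 * (η₀ * J) := by
    refine (Nat.floor_le ?_).trans (le_of_eq (by ring))
    have : 0 ≤ (Eb + η₀ + η₀) * (J : ℝ) := mul_nonneg (by linarith) hJ0
    exact this
  have hX10 : 20 * X ≤ (C₄ + 10 * C₅ + 20) * X :=
    mul_le_mul_of_nonneg_right (by linarith) hX0
  have hXc : (C₅ : ℝ) * X ≤ (C₄ + 10 * C₅ + 20) * X :=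
    mul_le_mul_of_nonneg_right (by linarith) hX0
  have hbd := (W.win.evs d hd)
  have hb0 := (W.win.evs 0 (Nat.zero_le N))
  obtain ⟨L, hL⟩ : ∃ L, L = ⌊Λ * J + η₀ * J⌋₊ := ⟨_, rfl⟩
  have L1 : (L : ℝ) ≤ Λ * J + η₀ * J := by rw [hL]; exact Nat.floor_le (by linarith)
  have hj2' : (C₄ : ℝ) + 10 * C₅ + 30 ≤ X := by
    have := j2
    rw [hCC] at this
    linarith
  -- visibility of the row label
  have hv := hvis (F := F) (c := c) (o₁ := ⌊o 0 * J⌋₊) (o₂ := ⌊o d * J⌋₊)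
    (L := L) (x := x) (M₀ := ⌊md⌋₊) (su := su) (sn := sn)
    (g₂ := g₀ d) (A := B) (cP := spt c r su sn ⌊o 0 * J⌋₊ (Ht 0)) hc hbd.ball hbd.cls
    (fun i hi => by
      have h1 := hdl i (by omega)
      have h4 : (C₅ : ℝ) ≤ X := by linarith
      have h3 : ((⌊(Eb + (fun _ : ℕ => η₀) d + (fun _ : ℕ => η₀) d) * J⌋₊ + g₀ d i + C₅ : ℕ) : ℝ) ≤
          (J : ℕ) := by
        push_cast
        linarith
      exact_mod_cast h3)
    (fun l hl => by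
      rw [hL]
      refine Nat.le_floor ?_
      unfold nlp
      rcases Nat.lt_or_ge ((Finset.Icc l (r + 1)).sup (g₀ d)) (g₀ d (r + 1)) with h3 | h3
      · rw [Nat.sub_eq_zero_of_le h3.le, Nat.cast_zero]
        linarith
      · rw [Nat.cast_sub h3]
        obtain ⟨j, hj, hje⟩ := Finset.exists_mem_eq_sup (Finset.Icc l (r + 1))
          ⟨r + 1, Finset.mem_Icc.2 ⟨by omega, le_rfl⟩⟩ (g₀ d)
        rw [hje]
        have := hdl j (Finset.mem_Icc.1 hj).2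
        have h5 := (W.win.g_num hd (l := r + 1) le_rfl).2.2.1
        linarith)
    (by
      have h3 : ((⌊(Eb + (fun _ : ℕ => η₀) d + (fun _ : ℕ => η₀) d) * J⌋₊ + L + g₀ d r + sn +
          ⌊md⌋₊ : ℕ) : ℝ) ≤ ((J + su + x : ℕ) : ℝ) := by
        push_cast
        have e9 : md = lv d (r + 1) * J - lv d r * J - lv 0 (r + 1) * J + lv 0 r * J := by
          rw [hmd']; ring
        linarith
      exact_mod_cast h3)
    (fun ω hω => by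
      rw [eval_spt h0J, ← mul_sub, abs_mul, abs_of_pos (show (0 : ℝ) < 2 ^ sn / 2 ^ su by
        positivity)]
      refine (mul_le_mul_of_nonneg_left (hnear d hd h0d ω hω) (by positivity)).trans ?_
      rw [ek d]
      refine (pw3' (z := (x : ℝ) - ⌊md⌋₊) ?_).trans (pwd (by linarith))
      have e9 : md = lv d (r + 1) * J - lv d r * J - lv 0 (r + 1) * J + lv 0 r * J := by
        rw [hmd']; ring
      linarith)
  -- the path of the difference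
  obtain ⟨Q, hQ⟩ : ∃ Q : LnT F → MvPolynomial (Option (Fin m)) ℝ, Q = fun s => Ht 0 s - ML s :=
    ⟨_, rfl⟩
  rw [← hQ, ← hsu, ← hsn] at hder
  have hQd : ∀ s, (Q s).totalDegree ≤ Dm := fun s => by
    rw [hQ]
    exact (totalDegree_sub _ _).trans (max_le ((hb0.dH s).trans hDDm) (dML s))
  have hU0 : (0 : ℝ) < 2 ^ sn / 2 ^ su := by positivity
  have hQe : ∀ ω, (spt c r su sn ⌊o 0 * J⌋₊ Q (slam F ⌊o 0 * J⌋₊ ω)).eval (rt F ⌊o 0 * J⌋₊ ω) =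
      (spt c r su sn ⌊o 0 * J⌋₊ (Ht 0) (slam F ⌊o 0 * J⌋₊ ω)).eval (rt F ⌊o 0 * J⌋₊ ω) -
        2 ^ sn / 2 ^ su * eval (bt F ω) (pderiv (some (c r)) (ML (slam F ⌊o 0 * J⌋₊ ω))) := by
    intro ω
    rw [eval_spt h0J, eval_spt h0J, hQ]
    beta_reduce
    rw [map_sub, map_sub]
    ring
  obtain ⟨S₁, hS₁⟩ : ∃ S₁ : ℝ, S₁ = 2 ^ (C₅ * (x + 1)) / 2 ^ ⌊md⌋₊ + (2 : ℝ) ^ (1 - μ * J) :=
    ⟨_, rfl⟩
  have hvQ : ∀ ω ν, B₁ ω → B₁ ν → ptr F J ω = ptr F J ν →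
      |(spt c r su sn ⌊o 0 * J⌋₊ Q (slam F ⌊o 0 * J⌋₊ ω)).eval (rt F ⌊o 0 * J⌋₊ ω) -
        (spt c r su sn ⌊o 0 * J⌋₊ Q (slam F ⌊o 0 * J⌋₊ ν)).eval (rt F ⌊o 0 * J⌋₊ ν)| ≤ S₁ := by
    intro ω ν hω hν hpt
    have q1 := hv ω ν (b3 ω hω) (b3 ν hν) hpt
    have q2 := hMv ω ν hω hν hpt
    have q3 : eval (bt F ν) (pderiv (some (c r)) (ML (slam F ⌊o 0 * J⌋₊ ν))) =
        eval (bt F ν) (pderiv (some (c r)) (Mp (ptr F J ω))) := by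
      rw [← hclo ν hν, hpt]
    rw [hQe, hQe, q3, ← hclo ω hω]
    have e9 : ∀ α β γ δ : ℝ, α - 2 ^ sn / 2 ^ su * γ - (β - 2 ^ sn / 2 ^ su * δ) =
        (α - β) - 2 ^ sn / 2 ^ su * (γ - δ) := fun α β γ δ => by ring
    rw [e9, hS₁]
    refine (abs_sub _ _).trans (add_le_add q1 ?_)
    rw [abs_mul, abs_of_pos hU0]
    refine (mul_le_mul_of_nonneg_left q2 hU0.le).trans ?_
    refine pw3' ?_
    have e10 : (lv 0 r - lv 0 (r + 1) - μ) * (J : ℝ) = lv 0 r * J - lv 0 (r + 1) * J - μ * J := by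
      ring
    rw [e10]
    linarith
  have hμJ : M₁ * J + 2 * X ≤ μ * J := by
    have := mul_le_mul_of_nonneg_right hμ hJ0
    refine le_trans (le_of_eq ?_) this
    rw [hX]
    ring
  have hcmp : (C₄ : ℝ) * (ψ * J + 1) ≤ CC * (ψ * J + 1) :=
    mul_le_mul_of_nonneg_right (by rw [hCC]; linarith) (by positivity)
  obtain ⟨B', κL, κG, k1, k2, k3, k4⟩ := hcst (F := F) (o₁ := ⌊o 0 * J⌋₊)
    (cP := spt c r su sn ⌊o 0 * J⌋₊ Q) h0J (deg_spt su sn _ hQd) ⌊M₁ * J⌋₊ hB₁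
    ((2 : ℝ) ^ (-(μ * J))) S₁ (ψ * J) hvQ (by positivity) (mul_nonneg hψ0.le hJ0) hTm
    (hcmp.trans (htt.trans (by
      have e1 := mul_le_mul_of_nonneg_right (mul_le_mul_of_nonneg_right hmin2 hl2.le) hJ0
      have e2 : (⌊o 0 * J⌋₊ : ℝ) * Real.log 2 ≤ o 0 * J * Real.log 2 :=
        mul_le_mul_of_nonneg_right f0 hl2.le
      linarith))) hder (by
      have t1 : Real.exp (C₄ * (ψ * J + 1)) ≤ (2 : ℝ) ^ (η₀ * J) := by
        rw [Real.rpow_def_of_pos h2]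
        refine Real.exp_le_exp.2 ((hcmp.trans (htt.trans
          (mul_le_mul_of_nonneg_right (mul_le_mul_of_nonneg_right hmin1 hl2.le) hJ0))).trans
            (le_of_eq (by ring)))
      have hpw : (1 : ℝ) / (4 * 2 ^ ⌊M₁ * J⌋₊) = 4 * (2 : ℝ) ^ (-((4 : ℝ) + ⌊M₁ * J⌋₊)) := by
        rw [Real.rpow_neg h2.le, Real.rpow_add h2, Real.rpow_natCast]
        norm_num
        field_simp
        norm_num
      have t2 : (2 : ℝ) ^ (η₀ * J) * (2 : ℝ) ^ (-(μ * J)) ≤ (2 : ℝ) ^ (-((4 : ℝ) + ⌊M₁ * J⌋₊)) := by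
        rw [← Real.rpow_add h2]
        exact Real.rpow_le_rpow_of_exponent_le (by norm_num) (by linarith)
      have t3 : (2 : ℝ) ^ (C₅ * (x + 1)) / 2 ^ ⌊md⌋₊ ≤ (2 : ℝ) ^ (-((4 : ℝ) + ⌊M₁ * J⌋₊)) := by
        rw [← Real.rpow_natCast, ← Real.rpow_natCast, ← Real.rpow_sub h2]
        refine Real.rpow_le_rpow_of_exponent_le (by norm_num) ?_
        push_cast
        have e10 : (C₅ : ℝ) * (x + 1) ≤ C₅ * (Zt + 8 * X + 1) :=
          mul_le_mul_of_nonneg_left (by linarith) (by linarith)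
        have e11 : (C₅ : ℝ) * (Zt + 8 * X + 1) = C₅ * (Zt + X) + 7 * (C₅ * X) + C₅ := by ring
        have e12 : (C₄ + 10 * C₅ + 20) * (Zt + X) = C₅ * (Zt + X) + 9 * (C₅ * (Zt + X)) +
          (C₄ + 20) * (Zt + X) := by ring
        have e13 : (C₅ : ℝ) * X ≤ C₅ * (Zt + X) :=
          mul_le_mul_of_nonneg_left (by linarith) (by linarith)
        have e14 : 20 * X ≤ (C₄ + 20) * (Zt + X) := by nlinarith
        have e15 : 0 ≤ (C₅ : ℝ) * (Zt + X) := by positivity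
        linarith
      have t4 : (2 : ℝ) ^ (1 - μ * J) ≤ (2 : ℝ) ^ (-((4 : ℝ) + ⌊M₁ * J⌋₊)) :=
        Real.rpow_le_rpow_of_exponent_le (by norm_num) (by linarith)
      have t5 := mul_le_mul_of_nonneg_right t1 (show (0 : ℝ) ≤ (2 : ℝ) ^ (-(μ * J)) by
        positivity)
      have t6 : (0 : ℝ) < (2 : ℝ) ^ (-((4 : ℝ) + ⌊M₁ * J⌋₊)) := by positivity
      rw [hpw, hS₁]
      linarith)
  have hB'B : Sub B' B := fun ω hω => b3 ω (k1 ω hω)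
  obtain ⟨U, hU⟩ : ∃ U : ℝ, U = 2 ^ su / 2 ^ sn := ⟨_, rfl⟩
  have hUp : 0 < U := by rw [hU]; positivity
  have hUU : U * (2 ^ sn / 2 ^ su) = 1 := by
    rw [hU]
    field_simp
  -- the row label against the closed polynomial
  have hrowM : ∀ ω, B' ω →
      |eval (bt F ω) (pderiv (some (c r)) (Ht 0 (slam F ⌊o 0 * J⌋₊ ω))) -
        (eval (bt F ω) (pderiv (some (c r)) (ML (slam F ⌊o 0 * J⌋₊ ω))) +
          U * κL (slam F ⌊o 0 * J⌋₊ ω))| ≤ U * (2 / 2 ^ ⌊M₁ * J⌋₊) := by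
    intro ω hω
    have h4 := k4 ω hω (rt F ⌊o 0 * J⌋₊ ω) (rt_mem F _ ω)
    rw [hQe, eval_spt h0J, ← mul_sub] at h4
    have h5 := mul_le_mul_of_nonneg_left h4 hUp.le
    refine le_trans (le_of_eq ?_) h5
    rw [← abs_of_pos hUp, ← abs_mul, abs_of_pos hUp, mul_sub, ← mul_assoc, hUU, one_mul]
    congr 1
    ring
  have dML' : ∀ s, (ML s + mu1 c r (U * κL s)).totalDegree ≤ Dm := fun s =>
    (totalDegree_add _ _).trans (max_le (dML s) ((deg_mu1 c r _).trans hDm1))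
  have dMp' : ∀ y, (Mp y + mu1 c r (U * κG y)).totalDegree ≤ Dm := fun y =>
    (totalDegree_add _ _).trans (max_le (dMp y) ((deg_mu1 c r _).trans hDm1))
  have hadd : ∀ {P P' : MvPolynomial (Option (Fin m)) ℝ}, DepC c (r + 1) P → DepC c (r + 1) P' →
      DepC c (r + 1) (P + P') := by
    intro P P' h1 h2 b b' h3 h4
    rw [map_add, map_add, h1 b b' h3 h4, h2 b b' h3 h4]
  have hPJ : 0 ≤ P * J := mul_nonneg hP hJ0
  have p2 : ((⌈P * J⌉₊ : ℕ) : ℝ) < P * J + 1 := Nat.ceil_lt_add_one hPJ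
  have hPJ' : P * J + 2 * Zt + 24 * X ≤ lv 0 (r + 1) * J := by
    have := mul_le_mul_of_nonneg_right hPn hJ0
    refine le_trans (le_of_eq ?_) this
    rw [hX, hZt]
    ring
  have hx1' : (1 : ℝ) ≤ 2 ^ x := one_le_pow₀ (by norm_num)
  have hM1 : (1 : ℝ) ≤ 2 ^ ⌊M₁ * J⌋₊ := one_le_pow₀ (by norm_num)
  have hM0 : (0 : ℝ) < 2 ^ ⌊M₁ * J⌋₊ := by positivity
  obtain ⟨B₂, h1, h2', V, zz, zz', G', h3, h4⟩ := lab_ev (r := r) (D := Dm) (n := n)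
    (κ := 1 / (8 * K₂)) (h := ⌊(fun _ : ℕ => η₀) 0 * J⌋₊) (P := ⌈P * J⌉₊) (K := 2 ^ (x + 2) * U)
    (ow := ⌊o 0 * J⌋₊) (gw := g₀ 0) (Gw := G 0) (Hw := H 0) (B := B) (B₁ := B')
    (o := fun k => ⌊o k * J⌋₊) (g := g₀) (G := G) (H := H) (X := fun k => (2 : ℝ) ^ (x₀ k * J))
    (ML := fun s => ML s + mu1 c r (U * κL s)) (Mp := fun y => Mp y + mu1 c r (U * κG y))
    hDr hc1 (hb0.ball.mono le_rfl (fun _ => hDDm) le_rfl le_rfl) hb0.cls hb0.relb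
    (fun k hk => ⟨_, (W.win.evs k (hn k hk)).ball.mono le_rfl (fun _ => hDDm) le_rfl le_rfl,
      (W.win.evs k (hn k hk)).cls⟩) dML' dMp'
    (fun s => hadd (pML s) (dep_mu1 c r _)) (fun y => hadd (pMp y) (dep_mu1 c r _)) hB'B (by
      have h8 : 1 / (8 * K₂) * Pe F.p B ≤ 1 / (8 * K₂) * (K₂ * Pe F.p B₁) :=
        mul_le_mul_of_nonneg_left b4 hκ.le
      have h9 : 1 / (8 * K₂) * (K₂ * Pe F.p B₁) = Pe F.p B₁ / 8 := by field_simp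
      linarith) (fun ω hω => by
      rw [hclo ω (k1 ω hω), k3 ω hω]) (fun ω hω => by
      rw [map_add, map_add, pd_mu1]
      have q1 := hrowM ω hω
      have q2 := hnear 0 (Nat.zero_le N) le_rfl ω (hB'B ω hω)
      have q3 : (2 : ℝ) ^ ((lv 0 r - lv 0 (r + 1) + ζ + 6 * (C * η₀)) * J) ≤ 2 ^ x * U := by
        rw [ek 0, hU, ← Real.rpow_natCast 2 x, ← Real.rpow_natCast 2 su, ← Real.rpow_natCast 2 sn,
          ← Real.rpow_sub h2, ← Real.rpow_add h2]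
        exact Real.rpow_le_rpow_of_exponent_le (by norm_num) (by linarith)
      have q4 : U * (2 / 2 ^ ⌊M₁ * J⌋₊) ≤ 2 * (2 ^ x * U) := by
        have : (2 : ℝ) / 2 ^ ⌊M₁ * J⌋₊ ≤ 2 := by
          rw [div_le_iff₀ hM0]
          linarith
        have h8 := mul_le_mul_of_nonneg_left this hUp.le
        have h9 := mul_le_mul_of_nonneg_right hx1' hUp.le
        linarith
      have q5 : (2 : ℝ) ^ (x + 2) * U = 4 * (2 ^ x * U) := by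
        rw [pow_add]
        ring
      rw [q5]
      have q6 : 0 < 2 ^ x * U := by positivity
      rw [abs_le] at q1 q2 ⊢
      constructor <;> linarith [q1.1, q1.2, q2.1, q2.2]) (by positivity) (fun k hk ω hω => by
      rw [map_add, map_add, pd_mu1]
      have q1 := hrowM ω hω
      have q2 := hnear k (hn k hk) (h0k k hk) ω (hB'B ω hω)
      have h6 : (2 : ℝ) ^ ((lv k r - lv k (r + 1) + ζ + 6 * (C * η₀)) * J) ≤
          (2 : ℝ) ^ (x₀ k * J - 1) := by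
        refine Real.rpow_le_rpow_of_exponent_le (by norm_num) ?_
        have e1 := mul_le_mul_of_nonneg_right (hx1 k hk) hJ0
        have e2 : (lv k r - lv k (r + 1) + ζ + 7 * (C * η₀)) * (J : ℝ) =
            (lv k r - lv k (r + 1) + ζ + 6 * (C * η₀)) * J + X := by rw [hX]; ring
        linarith
      have h7 : U * (2 / 2 ^ ⌊M₁ * J⌋₊) ≤ (2 : ℝ) ^ (x₀ k * J - 1) := by
        have e3 : U * (2 / 2 ^ ⌊M₁ * J⌋₊) =
            (2 : ℝ) ^ ((su : ℝ) - sn + (1 - (⌊M₁ * J⌋₊ : ℝ))) := by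
          rw [hU, Real.rpow_add h2, Real.rpow_sub h2, Real.rpow_sub h2, Real.rpow_natCast,
            Real.rpow_natCast, Real.rpow_natCast, Real.rpow_one]
        rw [e3]
        refine Real.rpow_le_rpow_of_exponent_le (by norm_num) ?_
        have e1 := mul_le_mul_of_nonneg_right (hx2 k hk) hJ0
        have e2 : (lv 0 r - lv 0 (r + 1) - M₁ + C * η₀) * (J : ℝ) =
            lv 0 r * J - lv 0 (r + 1) * J - M₁ * J + X := by rw [hX]; ring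
        have e4 : M₁ * J < ⌊M₁ * J⌋₊ + 1 := Nat.lt_floor_add_one _
        linarith
      have h8 : (2 : ℝ) ^ (x₀ k * J) = (2 : ℝ) ^ (x₀ k * J - 1) + (2 : ℝ) ^ (x₀ k * J - 1) := by
        rw [← two_mul, Real.rpow_sub_one h2.ne']
        field_simp
      rw [h8]
      rw [abs_le] at q1 q2 ⊢
      constructor <;> linarith [q1.1, q1.2, q2.1, q2.2]) (by
      have e9 : (1 : ℝ) / 2 ^ ⌈P * J⌉₊ =
          (2 : ℝ) ^ (-(⌈P * J⌉₊ : ℝ) - 1) + (2 : ℝ) ^ (-(⌈P * J⌉₊ : ℝ) - 1) := by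
        rw [← two_mul, Real.rpow_sub_one h2.ne', Real.rpow_neg h2.le, Real.rpow_natCast]
        field_simp
      rw [e9]
      refine add_le_add ?_ ?_
      · have : (1 : ℝ) / 2 ^ g₀ 0 (r + 1) = (2 : ℝ) ^ (-(g₀ 0 (r + 1) : ℝ)) := by
          rw [Real.rpow_neg h2.le, Real.rpow_natCast, one_div]
        rw [this]
        exact Real.rpow_le_rpow_of_exponent_le (by norm_num) (by linarith)
      · have : (2 : ℝ) ^ ⌊(fun _ : ℕ => η₀) 0 * J⌋₊ * (2 ^ (x + 2) * U) * (1 / 2 ^ g₀ 0 r) =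
            (2 : ℝ) ^ (((⌊η₀ * J⌋₊ + x + 2 : ℕ) : ℝ) + ((su : ℝ) - sn) - g₀ 0 r) := by
          rw [hU, Real.rpow_sub h2, Real.rpow_add h2, Real.rpow_sub h2, Real.rpow_natCast,
            Real.rpow_natCast, Real.rpow_natCast, Real.rpow_natCast]
          ring
        rw [this]
        refine Real.rpow_le_rpow_of_exponent_le (by norm_num) ?_
        push_cast
        linarith)
  refine ⟨B₂, fun ω hω => b1 ω (hB'B ω (h1 ω hω)), ?_, V, zz, zz', G', ⌈P * J⌉₊, h3,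
    Nat.le_ceil _, fun k hk => ?_⟩
  · have e1 : Pe F.p B₁ ≤ 8 * Pe F.p B₂ := by linarith
    have e2 := mul_le_mul_of_nonneg_left e1 (mul_pos hK₂ hK₁).le
    linarith
  · obtain ⟨V₁, z₁, z₁', G₁, l1, l2⟩ := h4 k hk
    refine ⟨V₁, z₁, z₁', G₁, g₀ k (r + 1), l1, ?_, fun ω hω => l2 ω hω⟩
    obtain ⟨-, -, q1, -, -, -⟩ := W.win.g_num (hn k hk) (l := r + 1) le_rfl
    have e1 : (lv k (r + 1) - η₀) * (J : ℝ) = lv k (r + 1) * J - η₀ * J := by ring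
    beta_reduce
    rw [e1]
    exact q1

end Pool.HK80
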